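import Pool.Agent.Lib.MP_9ff3e7_ag.F.PDefs

/-! The numerical form: volume data at a point and the conclusion with a given cost. -/

set_option autoImplicit false

namespace Pool.Agent.Lib.MP_9ff3e7_ag.F

open Finsupp

variable {n : ℕ} {O : Type} [CommRing O] [Algebra ℂ O] [Algebra (MvPolynomial (Fin n) ℂ) O]

/-- Hilbert function bounds for the subvarieties through `x` -/
structure Vol (T : Filt n O) (x : Pnt O) (sig : ℕ → ℝ) (e : ℕ → ℕ) : Prop where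
  pos : ∀ d, 1 ≤ d → d ≤ n → 0 < sig d
  mono : ∀ d d', 1 ≤ d → d ≤ d' → d' ≤ n → sig d ≤ sig d'
  pow : ∀ d, 1 ≤ d → d ≤ n → sig d ^ d ≤ e d
  up : ∀ P : Ideal O, P.IsPrime → ∀ d : ℕ, Algebra.trdeg ℂ (O ⧸ P) = d →
    ∃ C : ℕ, ∀ j, Hf T.F P j ≤ C * (j + 1) ^ d
  low : ∀ P : Ideal O, P.IsPrime → (∀ s ∈ P, x s = 0) → ∀ d : ℕ, Algebra.trdeg ℂ (O ⧸ P) = d →
    1 ≤ d → ∀ j, e d ≤ j → e d * (j - e d + d).choose d ≤ Hf T.F P j

/-- the conclusion of the core theorem with cost below `μ` -/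
def ConclS (M : Model n O) (T : Filt n O) (x : Pnt O) (μ : ℝ) : Prop :=
  ∃ (m : ℕ) (W : Fin m → Submodule ℂ O) (dg : Fin m → ℕ) (c : Fin m → ℝ) (b : ℝ),
    (∀ a, W a ≤ T.F (dg a)) ∧ (∀ a, 0 ≤ c a) ∧ 0 ≤ b ∧
    M.Klt x (∑ a, single (Ideal.span (W a : Set O)) (c a)) ∧
    ¬ M.Klt x (∑ a, single (Ideal.span (W a : Set O)) (c a) + single (mz n x) b) ∧
    ∑ a, c a * dg a + b < μ

end Pool.Agent.Lib.MP_9ff3e7_ag.F
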